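import Pool.Agent.E8helper49.DD.Stm

/-! Piece S_STRESS of project DD (MP_bfbd14_co): the stress of a lifted diagram. -/

open Set

namespace Pool.Agent.E8helper27.DD

open Pool.Agent.E8helper49.DD

theorem ar_rot (x y : Fin 12 → ℝ) (a b c : Fin 12) : ar x y a b c = ar x y b c a := by
  unfold ar; ring

theorem vol_rot (x y z : Fin 12 → ℝ) (a b c d : Fin 12) :
    vol x y z a b c d = vol x y z b c a d := by
  unfold vol; ring

theorem lf_ne : ∀ v i, (3 ≤ v ∨ 3 ≤ nbr v i) → lf v i ≠ 0 ∧ lf v (i - 1) ≠ 0 := by decide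

theorem lf_sub : ∀ (v : Fin 12) (i : Fin 5), ∀ r, face (lf v (i-1)) r ≠ nbr v (i+1) := by decide

theorem nbr_inj : ∀ (v : Fin 12) (i j : Fin 5), nbr v i = nbr v j → i = j := by decide

theorem ar_face {x y : Fin 12 → ℝ} (h : Pos x y) (T : Fin 20) (hT : T ≠ 0) (r : Fin 3) :
    0 < ar x y (face T r) (face T (r+1)) (face T (r+2)) := by
  have hp := h T hT
  fin_cases r
  · exact hp
  · change 0 < ar x y (face T 1) (face T 2) (face T 0)
    rwa [← ar_rot]
  · change 0 < ar x y (face T 2) (face T 0) (face T 1)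
    rwa [ar_rot]

theorem vol_face {x y z : Fin 12 → ℝ} (h : Convex' x y z) (T : Fin 20) (hT : T ≠ 0) (l : Fin 12)
    (hl : ∀ r, face T r ≠ l) (r : Fin 3) :
    0 < vol x y z (face T r) (face T (r+1)) (face T (r+2)) l := by
  have hp := h T hT l hl
  fin_cases r
  · exact hp
  · change 0 < vol x y z (face T 1) (face T 2) (face T 0) l
    rwa [← vol_rot]
  · change 0 < vol x y z (face T 2) (face T 0) (face T 1) l
    rwa [vol_rot]

theorem ar_pos {x y : Fin 12 → ℝ} (h : Pos x y) (v : Fin 12) (i : Fin 5) (hl : lf v i ≠ 0) :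
    0 < ar x y v (nbr v i) (nbr v (i+1)) := by
  obtain ⟨r, h0, h1, h2⟩ := lf_spec v i
  have hp := ar_face h (lf v i) hl r
  rwa [h0, h1, h2] at hp

theorem ar_pos' {x y : Fin 12 → ℝ} (h : Pos x y) (v : Fin 12) (i : Fin 5) (hl : lf v (i-1) ≠ 0) :
    0 < ar x y v (nbr v (i-1)) (nbr v i) := by
  have hp := ar_pos h v (i-1) hl
  rwa [sub_add_cancel] at hp

theorem vol_pos {x y z : Fin 12 → ℝ} (h : Convex' x y z) (v : Fin 12) (i : Fin 5)
    (hl : lf v (i-1) ≠ 0) :
    0 < vol x y z v (nbr v (i-1)) (nbr v i) (nbr v (i+1)) := by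
  obtain ⟨r, h0, h1, h2⟩ := lf_spec v (i-1)
  have hp := vol_face h (lf v (i-1)) hl (nbr v (i+1)) (lf_sub v i) r
  rw [h0, h1, h2, sub_add_cancel] at hp
  exact hp

/-- the stress on the `i`-th edge at `v` -/
noncomputable def W (x y z : Fin 12 → ℝ) (v : Fin 12) (i : Fin 5) : ℝ :=
  vol x y z v (nbr v (i-1)) (nbr v i) (nbr v (i+1)) /
    (ar x y v (nbr v (i-1)) (nbr v i) * ar x y v (nbr v i) (nbr v (i+1)))

/-- the stress as a function of two vertices -/
noncomputable def ww (x y z : Fin 12 → ℝ) (u v : Fin 12) : ℝ :=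
  ∑ i, if nbr u i = v then W x y z u i else 0

theorem ww_nbr (x y z : Fin 12 → ℝ) (v : Fin 12) (i : Fin 5) :
    ww x y z v (nbr v i) = W x y z v i := by
  unfold ww
  rw [Finset.sum_eq_single i]
  · rw [if_pos rfl]
  · intro j _ hj
    rw [if_neg]
    intro h
    exact hj (nbr_inj v j i h)
  · intro h
    exact absurd (Finset.mem_univ i) h

theorem ww_symm (x y z : Fin 12 → ℝ) (u v : Fin 12) : ww x y z u v = ww x y z v u := by
  by_cases h : ∃ i, nbr u i = v
  · obtain ⟨i, rfl⟩ := h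
    obtain ⟨j, hj0, hj1, hj2⟩ := nbr_symm u i
    rw [ww_nbr]
    have e : ww x y z (nbr u i) u = W x y z (nbr u i) j := by
      have := ww_nbr x y z (nbr u i) j
      rwa [hj0] at this
    rw [e]
    unfold W
    rw [hj0, hj1, hj2]
    congr 1
    · unfold vol; ring
    · unfold ar; ring
  · have h2 : ¬ ∃ j, nbr v j = u := by
      rintro ⟨j, rfl⟩
      obtain ⟨i, hi, _⟩ := nbr_symm v j
      exact h ⟨i, hi⟩
    unfold ww
    rw [Finset.sum_eq_zero, Finset.sum_eq_zero]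
    · intro i _
      rw [if_neg (fun e => h2 ⟨i, e⟩)]
    · intro i _
      rw [if_neg (fun e => h ⟨i, e⟩)]

theorem key (X Y Z X' Y' Z' X'' Y'' Z'' a b : ℝ) (ha : a = X * Y' - X' * Y)
    (hb : b = X' * Y'' - X'' * Y') (ha0 : a ≠ 0) (hb0 : b ≠ 0) :
    (X * (Y' * Z'' - Y'' * Z') - Y * (X' * Z'' - X'' * Z') + Z * (X' * Y'' - X'' * Y')) / (a * b)
      * X' = (X' * Z'' - X'' * Z') / b - (X * Z' - X' * Z) / a := by
  rw [div_sub_div _ _ hb0 ha0, div_mul_eq_mul_div, div_eq_div_iff (mul_ne_zero ha0 hb0)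
    (mul_ne_zero hb0 ha0)]
  subst ha hb
  ring

theorem key' (X Y Z X' Y' Z' X'' Y'' Z'' a b : ℝ) (ha : a = X * Y' - X' * Y)
    (hb : b = X' * Y'' - X'' * Y') (ha0 : a ≠ 0) (hb0 : b ≠ 0) :
    (X * (Y' * Z'' - Y'' * Z') - Y * (X' * Z'' - X'' * Z') + Z * (X' * Y'' - X'' * Y')) / (a * b)
      * Y' = (Y' * Z'' - Y'' * Z') / b - (Y * Z' - Y' * Z) / a := by
  rw [div_sub_div _ _ hb0 ha0, div_mul_eq_mul_div, div_eq_div_iff (mul_ne_zero ha0 hb0)
    (mul_ne_zero hb0 ha0)]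
  subst ha hb
  ring

theorem tele (f : Fin 5 → ℝ) : ∑ i, (f i - f (i - 1)) = 0 := by
  rw [Finset.sum_sub_distrib, sub_eq_zero]
  exact ((Equiv.subRight (1 : Fin 5)).sum_comp f).symm

theorem inner_ne : ∀ (v : Fin 12), 3 ≤ v → ∀ i, lf v i ≠ 0 := by decide

theorem t_STRESS : S_STRESS := by
  intro x y z hP hC
  refine ⟨ww x y z, ⟨ww_symm x y z, ?_⟩, ?_, ?_, ?_⟩
  · intro v i hi
    rw [ww_nbr]
    obtain ⟨h1, h2⟩ := lf_ne v i hi
    exact div_pos (vol_pos hC v i h2) (mul_pos (ar_pos' hP v i h2) (ar_pos hP v i h1))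
  · intro v hv
    have hne : ∀ i, ar x y v (nbr v i) (nbr v (i+1)) ≠ 0 := fun i =>
      (ar_pos hP v i (inner_ne v hv i)).ne'
    have hne' : ∀ i, ar x y v (nbr v (i-1)) (nbr v i) ≠ 0 := fun i =>
      (ar_pos' hP v i (inner_ne v hv _)).ne'
    have e : ∀ i, ww x y z v (nbr v i) * (x (nbr v i) - x v) =
        (fun i => ((x (nbr v i) - x v) * (z (nbr v (i+1)) - z v) - (x (nbr v (i+1)) - x v) *
          (z (nbr v i) - z v)) / ar x y v (nbr v i) (nbr v (i+1))) i -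
        (fun i => ((x (nbr v i) - x v) * (z (nbr v (i+1)) - z v) - (x (nbr v (i+1)) - x v) *
          (z (nbr v i) - z v)) / ar x y v (nbr v i) (nbr v (i+1))) (i-1) := by
      intro i
      simp only [sub_add_cancel]
      rw [ww_nbr]
      exact key _ _ _ _ _ _ _ _ _ _ _ rfl rfl (hne' i) (hne i)
    rw [Finset.sum_congr rfl fun i _ => e i]
    exact tele _
  · intro v hv
    have hne : ∀ i, ar x y v (nbr v i) (nbr v (i+1)) ≠ 0 := fun i =>
      (ar_pos hP v i (inner_ne v hv i)).ne'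
    have hne' : ∀ i, ar x y v (nbr v (i-1)) (nbr v i) ≠ 0 := fun i =>
      (ar_pos' hP v i (inner_ne v hv _)).ne'
    have e : ∀ i, ww x y z v (nbr v i) * (y (nbr v i) - y v) =
        (fun i => ((y (nbr v i) - y v) * (z (nbr v (i+1)) - z v) - (y (nbr v (i+1)) - y v) *
          (z (nbr v i) - z v)) / ar x y v (nbr v i) (nbr v (i+1))) i -
        (fun i => ((y (nbr v i) - y v) * (z (nbr v (i+1)) - z v) - (y (nbr v (i+1)) - y v) *
          (z (nbr v i) - z v)) / ar x y v (nbr v i) (nbr v (i+1))) (i-1) := by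
      intro i
      simp only [sub_add_cancel]
      rw [ww_nbr]
      exact key' _ _ _ _ _ _ _ _ _ _ _ rfl rfl (hne' i) (hne i)
    rw [Finset.sum_congr rfl fun i _ => e i]
    exact tele _
  · intro v i hi
    obtain ⟨h1, h2⟩ := lf_ne v i hi
    have a1 := (ar_pos' hP v i h2).ne'
    have a2 := (ar_pos hP v i h1).ne'
    rw [ww_nbr]
    unfold W
    field_simp

end Pool.Agent.E8helper27.DD
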